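import Pool.Agent.NH56.HO.Main

/-!
# Ordinary reduction of hyper-Kähler varieties in all degrees

**Theorem.** Let `X i` be finitely many projective hyper-Kähler varieties, of arbitrary deformation
types, over a number field `K`, and let `U` be an open normal subgroup of the Galois group which acts
trivially modulo `ℓ ^ 2` on all `H^2(X i, ℤ_ℓ)` and on the roots of unity. The places `v` of `K` whose
Frobenius elements are in `U` and at which all `X i` are ordinary in all degrees have natural density
`1 / [Gal(K) : U]`. In other words: over the number field which corresponds to `U` the set of the places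
which are ordinary in all degrees, for all `X i` at once, has density one.

Here ordinary in degree `j` means that the Newton polygon of the Frobenius on `H^j` is equal to the Hodge
polygon. For all but finitely many places (crystalline cohomology without torsion) ordinary in all
degrees is the same as ordinary in the sense of Bloch and Kato. Products of ordinary varieties are
ordinary. If `X` is a hyper-Kähler variety over an arbitrary field, with a model over `A`, every
nonempty open part of `Spec A` has points over rings `𝓞[1/n]` of integers of number fields, and the
theorem gives closed points in it with ordinary fibre. So the question has a positive answer for all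
projective hyper-Kähler varieties and their products.

For K3 surfaces the theorem is due to Bogomolov and Zarhin and to Joshi and Rajan. In degree two their
argument (Serre, Katz and Ogus) is used: at a place of degree one in the field of `U` the trace of
Frobenius on `H^2` is divisible by `p` only if it is equal to an integer multiple of `p`, of absolute
value at most `b₂`, and this is rare, by the theorem of Chebotarev with the theorem of Sen. For the
higher degrees: the valuations of the eigenvalues of a Frobenius element which is ordinary in degree two
give an operator `Φ` on `H^*(X)`; by the theorem on the action of Looijenga, Lunts and Verbitsky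
(`Pool.Agent.NH56.HY`, proof of the Mumford-Tate conjecture for hyper-Kähler varieties in all degrees)
`Φ` is given by this action. So the sums of the squares of the slopes of the Newton polygon and of the
Hodge polygon agree, in all degrees, and as the Newton polygon lies above the Hodge polygon, with the
same end point, they are equal, by strict convexity.
-/

set_option autoImplicit false

namespace Pool.Agent.Results.MP_adc574_ag.HyperKahlerOrdinary

open Matrix Polynomial Filter Topology NumberField IsDedekindDomain Pool.Agent.NH56.HY
  Pool.Agent.NH56.HO

/-- **Ordinary reduction of hyper-Kähler varieties in all degrees**, for a set of places of natural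
density `1 / [Gal(K) : U]` among those with Frobenius elements in `U`. -/
theorem result (K : Type) [Field K] [NumberField K] (ℓ : ℕ) [Fact ℓ.Prime]
    -- the hyper-Kähler varieties
    (I : Type) [Fintype I] [DecidableEq I] (ι : I → Type) [∀ i, Fintype (ι i)]
    [∀ i, DecidableEq (ι i)] (X : ∀ i, Coh (ι i)) (hX : ∀ i, IsHyperKahler (X i))
    -- the `ℓ`-adic realizations
    (S : Finset ℕ) (χ : GK K →* ℚ_[ℓ]) (Pol : I → HeightOneSpectrum (𝓞 K) → ℕ → ℤ[X])
    (ρ : ∀ i, GK K →* Matrix (ι i) (ι i) ℚ_[ℓ])
    (hρ : ∀ i, IsRealization (X i) S χ (Pol i) (ρ i)) (hHT : ∀ i, IsHodgeTate (X i) (ρ i))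
    -- an open normal subgroup which acts trivially modulo `ℓ ^ 2` in degree two
    (U : Subgroup (GK K)) (hUn : U.Normal) (hUo : IsOpen (U : Set (GK K)))
    (hU : ∀ g ∈ U, ‖χ g - 1‖ ≤ ((ℓ : ℝ) ^ 2)⁻¹ ∧
      ∀ i a b, ‖(blk (X i).deg 2 (ρ i g) - 1) a b‖ ≤ ((ℓ : ℝ) ^ 2)⁻¹) :
    Tendsto (dens fun v : HeightOneSpectrum (𝓞 K) => (∃ σ ∈ U, IsFrobenius v σ) ∧
      IsOrdinary X S Pol v) atTop (𝓝 (1 / (U.index : ℝ))) :=
  main_ORF K ℓ I ι X S χ Pol ρ hX hρ hHT U hUn hUo hU

end Pool.Agent.Results.MP_adc574_ag.HyperKahlerOrdinary
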