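import Pool.Agent.NH36.Pen.Fin

/-!
# Dense ordinary reduction of pencils of hyperelliptic curves with an almost square member

Let `k₀ ⊂ k` be fields of characteristic `0`, `t ∈ k` transcendental over `k₀`, and `h, q, r` polynomials
over `k₀` with `q r ≠ 0` and `deg r ≤ 6`.  The curve

  `X : y² = h (x) + t q (x) ² r (x)`

is a general member of a pencil of hyperelliptic curves (of any genus) which has the member
`y² = q ² r`, whose normalization has genus at most two; we assume that `h + t q ² r` is squarefree.
The field `k₀` may be the field of algebraic numbers. Examples are `y² = h (x) + t` and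
`y² = h (x) + t q (x) ²`, where `h` and `q` are arbitrary, `y² = h (x) + t r (x)` for `deg r ≤ 6`, and the
twists `y² = t r (x)` of all curves of genus at most two over `k₀`.

**Theorem.** Finitely many such curves `X i` (for the same `k₀` and `t`), and so the products of the `X i`
or of their Jacobians, have dense ordinary reduction: let `A ⊂ k` be a finitely generated ring over
which the curves are defined and `c ≠ 0` in `A`; there is a closed point of `Spec A` of odd
characteristic with `c ≠ 0` at which the Hasse-Witt matrices of all the `X i` are invertible.

The branch points of these curves move in families with one parameter, so for large genus this is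
far from the general curves (the codimension of these families in the moduli space is not bounded),
and all branch points may depend on `t`.

Proof. There is a valuation of an algebraic closure `K` of `k` with `v (t) < 0` which is trivial on the
algebraic closure `k₁` of `k₀` in `K`; its residue characteristic is `0`. The components of the semistable
reduction of `X` correspond to the discs given by two roots of `f = h + t q ² r`. The reduction of
`f` on such a disc is computed in `NH36/Pen/Main.lean`: it is `q ² r`, or, near a root `ρ` of `q ² r` of
multiplicity `m > 1`, after the substitution `x = ρ + σ z`, `σ ^ (m - s) = 1 / t`, it is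
`u z ^ m + w z ^ s`, where `s ≤ 1` is the multiplicity of `ρ` in `h`, or, near infinity, after
`x = z / υ`, `υ ^ (deg h - deg q² r) = 1 / t`, it is the sum of the leading terms of `h` and of `q ² r`.
So all components are curves `y² = R (z)` with `deg R ≤ 6` or `R = z ^ ε (z ^ d - c)`, `ε ≤ 1`. Curves of
genus at most two have simultaneous dense ordinary reduction by `R410/OR/Base2.lean`: all primes
`p ≡ 1 mod 16` at which the differences of the branch points are squares in the field with `p`
elements can be used. One can choose such `p` with `p ≡ 1 mod 2 d` for all `d`, and then the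
Hasse-Witt matrices of the curves `y² = z ^ ε (z ^ d - c)` are diagonal and invertible
(`NH36/Pen/Kummer.lean`, `NH36/Pen/Base3.lean`). Finally dense ordinary reduction lifts from the
components of the reduction (`R410/OR/Tr2.lean`).
-/

set_option autoImplicit false

open Polynomial

universe u v w

namespace Pool.Agent.Results.MP_adc574_ag.PencilsAlmostSquare

/-- The Hasse-Witt (Cartier-Manin) matrix of `y² = f(x)`: the entry with indices `i, j` (from `0`)
is the coefficient of `x ^ (p (i + 1) - (j + 1))` in `f ^ ((p - 1) / 2)`, written as the coefficient of
`x ^ (p (i + 1))` in `x ^ (j + 1) f ^ ((p - 1) / 2)`. For `f` squarefree of degree `2 g + 1` or `2 g + 2` over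
a field of characteristic `p > 2` the curve is ordinary if and only if this matrix is invertible. -/
noncomputable def hasseWitt {R : Type*} [CommRing R] (p g : ℕ) (f : R[X]) :
    Matrix (Fin g) (Fin g) R :=
  Matrix.of fun i j => (X ^ ((j : ℕ) + 1) * f ^ ((p - 1) / 2)).coeff (p * ((i : ℕ) + 1))

theorem result {k₀ : Type w} {k : Type u} [Field k₀] [Field k] [CharZero k] [Algebra k₀ k]
    -- a transcendental parameter
    (t : k) (ht : Transcendental k₀ t)
    -- finitely many curves `y² = h + t q² r`, `deg r ≤ 6`, where `h + t q² r` is squarefree
    {ι : Type v} [Finite ι] (h q r : ι → k₀[X]) (hqr : ∀ i, q i * r i ≠ 0)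
    (hr : ∀ i, (r i).natDegree ≤ 6) (f : ι → k[X])
    (hf : ∀ i, f i = (h i).map (algebraMap k₀ k) + C t * ((q i) ^ 2 * r i).map (algebraMap k₀ k))
    (hsq : ∀ i, Squarefree (f i))
    -- a finitely generated ring over which the curves are defined, a nonempty open set
    (A : Subalgebra ℤ k) (hA : A.FG) (F : ι → A[X])
    (hF : ∀ i, (F i).map (algebraMap A k) = f i) (c : A) (hc : c ≠ 0) :
    ∃ (p : ℕ) (M : Ideal A), p.Prime ∧ p ≠ 2 ∧ M.IsMaximal ∧ (p : A) ∈ M ∧ c ∉ M ∧
      ∀ i, (hasseWitt p (((f i).natDegree - 1) / 2)
        ((F i).map (Ideal.Quotient.mk M))).det ≠ 0 :=
  Pool.Agent.NH36.Pen.main t ht h q r hqr hr f hf hsq A hA F hF c hc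

end Pool.Agent.Results.MP_adc574_ag.PencilsAlmostSquare
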