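import Pool.Agent.NH36.Trop.Transfer
import Pool.Agent.NH36.Trop.Simplex

/-!
# Dense ordinary reduction of hypersurfaces with a simplicial tropical degeneration

Let `k` be a field of characteristic `0` with a valuation ring `O ⊂ k` whose residue field `κ` has
characteristic `0` (the value group is arbitrary), and `f = ∑ a_w x ^ w` a Laurent polynomial in `n`
variables over `k` with Newton polytope `Δ`.  The valuations of the coefficients define a regular
subdivision of `Δ`: the cell of a point `u` is given by an affine function below the function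
`w ↦ v (a_w)`, in other words by a point `t` of the torus and a scalar `e` such that the
coefficients `e t ^ w a_w` of the twisted polynomial `e f (t x)` lie in `O`; the exponents `w` for
which `e t ^ w a_w` is a unit of `O` span the cell.  The twisted polynomial reduces to a polynomial
over `κ` with these exponents.  We assume that the cells which contain the interior lattice points `u`
of `Δ` in their relative interior are simplices, and that only the coefficients of the vertices have
the minimal valuation.  This is the case when the valuations of the coefficients are tropically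
generic: the regular subdivision is a triangulation with the vertices as only marked points.
The reductions `f_u` are then Fermat (Delsarte) hypersurfaces, with arbitrary coefficients in `κ`.

**Theorem.** There is `m > 0` such that for all large primes `p ≡ 1 mod m` the closed points of
characteristic `p` with invertible Hasse-Witt matrix are dense: let `A ⊂ k` be a finitely generated
ring which contains the coefficients, `c ≠ 0` in `A`; then there is a maximal ideal `M` of `A` which
contains `p` and not `c`, such that the Hasse-Witt matrix of `f mod M` is invertible.  The same holds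
simultaneously for finitely many `f i` in tori of any dimensions, hence for products.

The Hasse-Witt matrix has as indices the interior lattice points of `Δ`, its entries are the
coefficients of `x ^ (p u - v)` in `f ^ (p - 1)`.  For a polynomial `f` which is nondegenerate with respect
to `Δ` it is the matrix of the Frobenius on `H ^ (n-1) (X, O_X)`, where `X` is a smooth
compactification of the hypersurface `f = 0` of the torus.  For curves (`n = 2`, of genus the number of
the interior lattice points) and for surfaces (`n = 3`) it is invertible if and only if `X` is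
ordinary in the sense of Bloch and Kato (for surfaces `H ^ 1 (X, O_X) = 0`, and `BΩ²` is dual to
`BΩ¹`).

For example, let `h` be an integral function on the lattice points of `Δ` which defines a regular
triangulation of `Δ`, `b_w` any elements of a field `k₀` of characteristic `0`, nonzero when `w` is a
vertex of the triangulation, and `t` transcendental over `k₀`. The theorem applies to
`∑ b_w t ^ (h w) x ^ w`.  The coefficients `b_w` may be algebraic numbers: the family depends on
one transcendental number only, and it need not have totally degenerate reduction, since the simplices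
of the triangulation may contain lattice points.

Proof. Let `L` be a field of characteristic `p` with a valuation ring `W`, and `f` over `L` with
reductions `f_u` as above. For affine functions `l_u` which define the cells the entry with
indices `u, v` has valuation at least `p l_u (u) - l_u (v) ≥ p l_u (u) - l_v (v)`; after a scaling of the rows
and columns the matrix has entries in `W`, its reduction is block triangular, and the diagonal
blocks are the Hasse-Witt matrices of the `f_u` for the lattice points in the relative interiors of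
the cells (`NH36/Trop/Valued.lean`). For simplices and `p ≡ 1 mod m` they are diagonal, with entries
multinomial coefficients times monomials in the coefficients (`NH36/Trop/Simplex.lean`). A finitely
generated subring `C₁` of `O` containing the coefficients of the twisted polynomials, its image in `κ`
and a maximal ideal `M'` of the image over `p` give a prime ideal of `C₁`; by the theorems of Chevalley
and Krull the valuation lifts to a valuation of a residue field of characteristic `p` of `A`, for all
large `p` (`NH36/Trop/Transfer.lean`).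
-/

set_option autoImplicit false

open AddMonoidAlgebra

universe u v

namespace Pool.Agent.Results.MP_adc574_ag.TropicalTriangulations

/-- The Hasse-Witt matrix of the hypersurface `f = 0`: the indices are the points `u, v` of the set
`I` of the interior lattice points of the Newton polytope of `f`; the entry with indices `u, v` is the
coefficient of `x ^ (p u - v)` in `f ^ (p - 1)`. -/
noncomputable def hasseWitt {R : Type*} [CommRing R] {n : ℕ} (p : ℕ) (I : Finset (Fin n → ℤ))
    (f : AddMonoidAlgebra R (Fin n → ℤ)) : Matrix I I R :=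
  Matrix.of fun u v => (f ^ (p - 1)).coeff (p • (u : Fin n → ℤ) - v)

/-- `I` is the set of the lattice points in the interior of the Newton polytope of `f`. -/
def IsInterior {k : Type*} [Field k] {n : ℕ} (f : AddMonoidAlgebra k (Fin n → ℤ))
    (I : Finset (Fin n → ℤ)) : Prop :=
  ∀ u : Fin n → ℤ, u ∈ I ↔ (fun a => (u a : ℝ)) ∈
    interior (convexHull ℝ ((fun (w : Fin n → ℤ) a => (w a : ℝ)) '' f.coeff.support))

/-- The elements of `S` are the vertices of a simplex which contains `u` in its relative interior. -/
def InOpenSimplex {n : ℕ} (S : Finset (Fin n → ℤ)) (u : Fin n → ℤ) : Prop :=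
  AffineIndependent ℚ (fun (w : S) (a : Fin n) => ((w : Fin n → ℤ) a : ℚ)) ∧
    ∃ l : (Fin n → ℤ) → ℚ, (∀ w ∈ S, 0 < l w) ∧ ∑ w ∈ S, l w = 1 ∧
      ∀ a, (u a : ℚ) = ∑ w ∈ S, l w * (w a : ℚ)

/-- The cell of the point `u` in the regular subdivision of the Newton polytope given by the valuations
of the coefficients of `f` is a simplex which contains `u` in its relative interior, and only the
vertices of the simplex are marked: for some `e ≠ 0` and some point `t` of the torus all coefficients
`e t ^ w a_w` of `e f (t x)` are integral, and the exponents `w` for which they are units are the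
vertices of such a simplex. -/
def HasSimplicialCell {k : Type*} [Field k] (O : ValuationSubring k) {n : ℕ}
    (f : AddMonoidAlgebra k (Fin n → ℤ)) (u : Fin n → ℤ) : Prop :=
  ∃ (e : k) (t : Fin n → k) (S : Finset (Fin n → ℤ)), e ≠ 0 ∧ (∀ a, t a ≠ 0) ∧
    (∀ w, e * (∏ a, t a ^ w a) * f.coeff w ∈ O) ∧
    (∀ w, w ∈ S ↔ O.valuation (e * (∏ a, t a ^ w a) * f.coeff w) = 1) ∧ InOpenSimplex S u

theorem InOpenSimplex.aff {n : ℕ} {S : Finset (Fin n → ℤ)} {u : Fin n → ℤ}
    (h : InOpenSimplex S u) : Pool.Agent.NH36.Trop.AffInd S := by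
  classical
  intro z hz1 hz2
  have h1 := h.1
  rw [affineIndependent_iff] at h1
  intro w hw
  have h2 := h1 Finset.univ (fun x => (z x : ℚ)) (by
    rw [Finset.univ_eq_attach, Finset.sum_attach S (fun x => (z x : ℚ))]
    exact_mod_cast hz1) (by
    rw [Finset.univ_eq_attach]
    ext a
    have h3 := congrFun hz2 a
    rw [Finset.sum_apply] at h3 ⊢
    simp only [Pi.smul_apply, smul_eq_mul, Pi.zero_apply] at h3 ⊢
    rw [Finset.sum_attach S (fun x => (z x : ℚ) * (x a : ℚ))]
    exact_mod_cast h3) ⟨w, hw⟩ (Finset.mem_univ _)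
  exact_mod_cast h2

/-- a common denominator -/
theorem InOpenSimplex.denom {n : ℕ} {S : Finset (Fin n → ℤ)} {u : Fin n → ℤ}
    (h : InOpenSimplex S u) : ∃ m : ℕ, 0 < m ∧ ∀ r : ℕ, ∃ b : (Fin n → ℤ) → ℕ,
      (0 < r → ∀ w ∈ S, 0 < b w) ∧ ∑ w ∈ S, b w = m * r ∧ (m * r) • u = ∑ w ∈ S, b w • w := by
  classical
  obtain ⟨-, l, hl1, hl2, hl3⟩ := h
  refine ⟨∏ w ∈ S, (l w).den, Finset.prod_pos fun w _ => (l w).den_pos, fun r => ?_⟩
  set m := ∏ w ∈ S, (l w).den with hm
  have h1 : ∀ w ∈ S, ∃ b : ℕ, (b : ℚ) = m * r * l w := by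
    intro w hw
    obtain ⟨c, hc⟩ := Finset.dvd_prod_of_mem (fun w => (l w).den) hw
    refine ⟨c * r * (l w).num.toNat, ?_⟩
    have h2 : (((l w).num.toNat : ℤ) : ℚ) = (l w).num := by
      rw [Int.toNat_of_nonneg (Rat.num_nonneg.2 (hl1 w hw).le)]
    have h3 : (l w : ℚ) * (l w).den = (l w).num := Rat.mul_den_eq_num _
    push_cast at h2 ⊢
    rw [h2, ← h3, hm, hc]
    push_cast
    ring
  choose! b hb using h1
  refine ⟨b, fun hr w hw => ?_, ?_, ?_⟩
  · have h2 : (0 : ℚ) < b w := by
      rw [hb w hw]
      have := hl1 w hw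
      have h3 : (0 : ℚ) < m := by
        exact_mod_cast Finset.prod_pos fun w _ => (l w).den_pos
      have h4 : (0 : ℚ) < r := by exact_mod_cast hr
      positivity
    exact_mod_cast h2
  · have h2 : ((∑ w ∈ S, b w : ℕ) : ℚ) = ((m * r : ℕ) : ℚ) := by
      push_cast
      rw [Finset.sum_congr rfl hb, ← Finset.mul_sum, hl2, mul_one]
    exact_mod_cast h2
  · ext a
    have h2 : (((m * r : ℕ) * u a : ℤ) : ℚ) = ((∑ w ∈ S, (b w : ℤ) * w a : ℤ) : ℚ) := by
      push_cast
      rw [hl3 a, Finset.mul_sum]
      refine Finset.sum_congr rfl fun w hw => ?_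
      rw [hb w hw]
      ring
    rw [Finset.sum_apply]
    simp only [Pi.smul_apply, nsmul_eq_mul]
    exact_mod_cast h2

theorem result {k : Type u} [Field k] [CharZero k]
    -- a valuation of `k` with residue characteristic `0`
    (O : ValuationSubring k) [CharZero (IsLocalRing.ResidueField O)]
    -- finitely many hypersurfaces with simplicial cells at the interior lattice points
    {ι : Type v} [Finite ι] (n : ι → ℕ) (f : ∀ i, AddMonoidAlgebra k (Fin (n i) → ℤ))
    (I : ∀ i, Finset (Fin (n i) → ℤ)) (_hI : ∀ i, IsInterior (f i) (I i))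
    (h : ∀ i, ∀ u ∈ I i, HasSimplicialCell O (f i) u)
    -- a finitely generated ring over which they are defined, a nonempty open set
    (A : Subalgebra ℤ k) (hA : A.FG) (F : ∀ i, AddMonoidAlgebra A (Fin (n i) → ℤ))
    (hF : ∀ i, mapRingHom _ (algebraMap A k) (F i) = f i) (c : A) (hc : c ≠ 0) :
    ∃ m N : ℕ, 0 < m ∧ ∀ p : ℕ, N ≤ p → p.Prime → m ∣ p - 1 →
      ∃ M : Ideal A, M.IsMaximal ∧ (p : A) ∈ M ∧ c ∉ M ∧
        ∀ i, (hasseWitt p (I i) (mapRingHom _ (Ideal.Quotient.mk M) (F i))).det ≠ 0 := by
  classical
  have hfin := Fintype.ofFinite ι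
  -- choose the sets first, then the data
  have h' : ∀ i, ∀ u, ∃ S : Finset (Fin (n i) → ℤ), u ∈ I i →
      (∃ (e : k) (t : Fin (n i) → k), e ≠ 0 ∧ (∀ a, t a ≠ 0) ∧
        (∀ w, e * (∏ a, t a ^ w a) * (f i).coeff w ∈ O) ∧
        (∀ w, w ∈ S ↔ O.valuation (e * (∏ a, t a ^ w a) * (f i).coeff w) = 1)) ∧
          InOpenSimplex S u := by
    intro i u
    by_cases hu : u ∈ I i
    · obtain ⟨e, t, S, h1, h2, h3, h4, h5⟩ := h i u hu
      exact ⟨S, fun _ => ⟨⟨e, t, h1, h2, h3, h4⟩, h5⟩⟩
    · exact ⟨∅, fun hu' => absurd hu' hu⟩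
  choose S hS using h'
  have h'' : ∀ i, ∀ T : Finset (Fin (n i) → ℤ), ∃ (e : k) (t : Fin (n i) → k),
      (∃ u ∈ I i, S i u = T) → e ≠ 0 ∧ (∀ a, t a ≠ 0) ∧
        (∀ w, e * (∏ a, t a ^ w a) * (f i).coeff w ∈ O) ∧
        (∀ w, w ∈ T ↔ O.valuation (e * (∏ a, t a ^ w a) * (f i).coeff w) = 1) := by
    intro i T
    by_cases hT : ∃ u ∈ I i, S i u = T
    · obtain ⟨u, hu, rfl⟩ := hT
      obtain ⟨⟨e, t, h1⟩, -⟩ := hS i u hu
      exact ⟨e, t, fun _ => h1⟩
    · exact ⟨0, fun _ => 0, fun hT' => absurd hT' hT⟩
  choose e t het using h''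
  have hd : ∀ i, ∀ u, ∃ m : ℕ, 0 < m ∧ (u ∈ I i → ∀ r : ℕ, ∃ b : (Fin (n i) → ℤ) → ℕ,
      (0 < r → ∀ w ∈ S i u, 0 < b w) ∧ ∑ w ∈ S i u, b w = m * r ∧
        (m * r) • u = ∑ w ∈ S i u, b w • w) := by
    intro i u
    by_cases hu : u ∈ I i
    · obtain ⟨m, h1, h2⟩ := (hS i u hu).2.denom
      exact ⟨m, h1, fun _ => h2⟩
    · exact ⟨1, one_pos, fun hu' => absurd hu' hu⟩
  choose m hm0 hm using hd
  obtain ⟨A', hA', G, hG, hGu, N, hN⟩ := Pool.Agent.NH36.Trop.transfer O n I f
    (fun i u => e i (S i u)) (fun i u => t i (S i u))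
    (fun i u hu => (het i (S i u) ⟨u, hu, rfl⟩).1)
    (fun i u hu => (het i (S i u) ⟨u, hu, rfl⟩).2.1) S
    (fun i u hu => (het i (S i u) ⟨u, hu, rfl⟩).2.2.1)
    (fun i u hu => (het i (S i u) ⟨u, hu, rfl⟩).2.2.2)
    (fun i u hu => by
      obtain ⟨b, h1, h2, h3⟩ := hm i u hu 1
      refine ⟨b, h1 one_pos, ?_, ?_⟩
      · rw [h2, mul_one]
        exact (hm0 i u).ne'
      · rw [h2]
        exact h3)
    (fun i u hu v hv huv => by rw [huv]; exact ⟨rfl, rfl⟩) A hA F hF c hc
  have hfA' : Algebra.FiniteType ℤ A' := (Subalgebra.fg_iff_finiteType _).mp hA'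
  obtain ⟨N', hN'⟩ : ∃ N : ℕ, ∀ p : ℕ, N ≤ p → p.Prime →
      ∃ Q : Ideal A', Q.IsPrime ∧ (p : A') ∈ Q := by
    have e1 : (Ring.toIntAlgebra A' : Algebra ℤ A') = Subalgebra.algebra A' :=
      Subsingleton.elim _ _
    have h1 : @Algebra.FiniteType ℤ A' _ _ (Ring.toIntAlgebra A') := by
      rw [e1]
      exact hfA'
    exact Pool.Agent.Y162.HW.exists_prime_over (R := A')
  let m₀ : ℕ := ∏ i, ∏ u ∈ I i, m i u
  have hm₀ : 0 < m₀ := Finset.prod_pos fun i _ => Finset.prod_pos fun u _ => hm0 i u
  refine ⟨m₀, max N N', hm₀, fun p hNp hp hmp => ?_⟩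
  obtain ⟨Q, hQ, hpQ⟩ := hN' p ((le_max_right _ _).trans hNp) hp
  obtain ⟨M', hM', hQM'⟩ := Q.exists_le_maximal hQ.ne_top
  have hpM' : (p : A') ∈ M' := hQM' hpQ
  refine hN p ((le_max_left _ _).trans hNp) hp M' hM' hpM' fun i u hu => ?_
  letI : Field (A' ⧸ M') := Ideal.Quotient.field M'
  have hpf : Fact p.Prime := ⟨hp⟩
  have hk'0 : ((p : ℕ) : A' ⧸ M') = 0 := by
    rw [← map_natCast (Ideal.Quotient.mk M'), Ideal.Quotient.eq_zero_iff_mem]
    exact hpM'
  have hk'p : CharP (A' ⧸ M') p := Pool.Agent.R410.OR.prime_charP hp hk'0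
  refine Pool.Agent.NH36.Trop.simplex_det _ _ (S i u) ?_ (hS i u hu).2.aff m₀ hmp ?_
  · intro w
    rw [coeff_mapRingHom, Ne, Ideal.Quotient.eq_zero_iff_mem]
    constructor
    · intro hw hmem
      exact hM'.ne_top (Ideal.eq_top_of_isUnit_mem _ hmem (hGu i u hu w hw))
    · intro hmem
      by_contra hw
      apply hmem
      have h1 := (het i (S i u) ⟨u, hu, rfl⟩).2.2
      have h2 : (G i u).coeff w = 0 := by
        apply Subtype.ext
        rw [hG i u hu w]
        change Pool.Agent.R410.OR.red O (e i (S i u) * (∏ a, t i (S i u) a ^ w a) *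
          (f i).coeff w) = 0
        rw [Pool.Agent.R410.OR.red_of O (h1.1 w)]
        rw [IsLocalRing.residue_eq_zero_iff, ValuationSubring.valuation_lt_one_iff]
        exact lt_of_le_of_ne ((O.valuation_le_one_iff _).2 (h1.1 w))
          fun h => hw ((h1.2 w).2 h)
      rw [h2]
      exact zero_mem _
  · intro v hv
    obtain ⟨hv1, hv2⟩ := Finset.mem_filter.1 hv
    obtain ⟨r, hr⟩ : m i v ∣ m₀ :=
      (Finset.dvd_prod_of_mem (fun v => m i v) hv1).trans
        (Finset.dvd_prod_of_mem (fun i => ∏ u ∈ I i, m i u) (Finset.mem_univ i))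
    have hr0 : 0 < r := by
      rcases Nat.eq_zero_or_pos r with h0 | h0
      · rw [h0, mul_zero] at hr
        omega
      · exact h0
    obtain ⟨b, h1, h2, h3⟩ := hm i v hv1 r
    rw [hv2] at h1 h2 h3
    exact ⟨b, h1 hr0, h2.trans hr.symm, by rw [hr]; exact h3⟩

end Pool.Agent.Results.MP_adc574_ag.TropicalTriangulations
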